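import Pool.Agent.Lib.MP_eff308_lc.T.FinG

open Cardinal Set Pool.Agent.Lib.MP_eff308_lc.T

universe u

namespace Pool.Agent.Results.MP_eff308_lc.MixedFamilies

/-- Towers plus `κ⁺` arbitrary sets behave like towers: a family of fewer than `t(κ)` sets with
the strong intersection property, which is the union of at most `κ⁺` sets and of `κ` families
well-ordered by reverse almost inclusion, has a pseudointersection. The families may have
different coinitialities below `μ < p(κ)` and one common larger coinitiality `lam`. -/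
theorem result (κ : Cardinal.{u}) (hreg : κ.IsRegular) (h0 : ℵ₀ < κ) (hpow : κ ^< κ = κ)
    (F D : Set (Set (KK κ))) (T : KK κ → Set (Set (KK κ)))
    (hFDT : F = D ∪ ⋃ ξ, T ξ) (hF : SIP F) (hFt : #(↥F) < tNum κ)
    (hD : #(↥D) ≤ Order.succ κ) (hT : ∀ ξ, StarWO (T ξ))
    (μ lam : Cardinal.{u}) (hμ : μ < pNum κ)
    (hc : ∀ ξ, coin (T ξ) ≤ μ ∨ coin (T ξ) = lam)
    (hs : κ.IsStrongLimit ∨
      {c | (∃ ξ, coin (T ξ) = c) ∧ Order.succ κ < c ∧ c < pNum κ}.Finite) :
    HasPI F := by
  rcases lt_or_ge (#(↥F)) (pNum κ) with hlt | hge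
  · exact hasPI_small hreg hF hlt
  · have hpt : pNum κ < tNum κ := lt_of_le_of_lt hge hFt
    rcases lt_or_ge lam (tNum κ) with hl | hl
    · exact mainG hreg h0 hpow hpt F hF D hD T hT hFDT μ lam hμ hl hc hs
    · refine mainG hreg h0 hpow hpt F hF D hD T hT hFDT μ μ hμ (hμ.trans hpt)
        (fun ξ => Or.inl ((hc ξ).elim id fun he => ?_)) hs
      exfalso
      have h1 : coin (T ξ) ≤ #(↥(T ξ)) :=
        coin_le subset_rfl fun A hA => ⟨A, hA, almost_refl hreg A⟩
      have h2 : #(↥(T ξ)) ≤ #(↥F) := by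
        refine mk_le_mk_of_subset ?_
        rw [hFDT]
        exact (Set.subset_iUnion T ξ).trans Set.subset_union_right
      rw [he] at h1
      exact absurd ((h1.trans h2).trans_lt hFt) (not_lt.2 hl)

end Pool.Agent.Results.MP_eff308_lc.MixedFamilies
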