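import Pool.Agent.Lib.MP_eff308_lc.HU.Pos

open Cardinal Set Pool.Agent.Lib.MP_eff308_lc.T Pool.Agent.Lib.MP_eff308_lc.HU

universe u

namespace Pool.Agent.Results.MP_eff308_lc.PositiveSets

/-- Let `κ` be regular uncountable with `κ^{<κ} = κ`, let `U` be a family of fewer than `p(κ)`
subsets of `κ` which is the union of at most `κ⁺` sets and of `κ` families well-ordered by reverse
almost inclusion (with finitely many coinitialities above `κ⁺` unless `κ` is a strong limit), and
let `H` be a collection of fewer than `t(κ)` families, each of fewer than `p(κ)` subsets of `κ`.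
If the intersection of fewer than `κ` members of `U` is always `H`-positive, then `U` has an
`H`-positive pseudointersection. -/
theorem result (κ : Cardinal.{u}) (hreg : κ.IsRegular) (h0 : ℵ₀ < κ) (hpow : κ ^< κ = κ)
    (U D : Set (Set (KK κ))) (T : KK κ → Set (Set (KK κ))) (hU : U = D ∪ ⋃ ξ, T ξ)
    (hUp : #(↥U) < pNum κ) (hD : #(↥D) ≤ Order.succ κ) (hT : ∀ ξ, StarWO (T ξ))
    (hs : κ.IsStrongLimit ∨ {c | (∃ ξ, coin (T ξ) = c) ∧ Order.succ κ < c}.Finite)
    (H : Set (Set (Set (KK κ)))) (hH : #(↥H) < tNum κ) (hHF : ∀ F ∈ H, #(↥F) < pNum κ)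
    (hpos : ∀ G : Set (Set (KK κ)), G ⊆ U → #(↥G) < κ → PosH H (⋂₀ G)) :
    ∃ X : Set (KK κ), PosH H X ∧ ∀ B ∈ U, Almost X B :=
  pos_mixed ⟨hreg, h0, hpow⟩ U D T hU hUp hD hT hs H hH hHF hpos

end Pool.Agent.Results.MP_eff308_lc.PositiveSets
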