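import Pool.Agent.Lib.MP_eff308_lc.EA.Exist

/-!
Measurable `κ`: if some set of at most `κ⁺` subsets of `κ` is missing from the ultrapower by some
`κ`-complete ultrafilter then `p(κ) = t(κ) = κ⁺`.
-/

open Cardinal Set Filter

namespace Pool.Agent.Results.MP_eff308_lc.SmallSetsInUltrapower

universe u

open Pool.Agent.EFF

theorem result (κ : Cardinal.{u}) (hκ : ℵ₀ < κ) (U : Ultrafilter κ.ord.ToType)
    (hU : KComplete κ U) (hn : Nonprincipal U) :
    ∃ π : κ.ord.ToType → κ.ord.ToType, Meas κ U π ∧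
      ∀ Y : Set (Set κ.ord.ToType), ¬ InUlt U π Y →
        pNum κ ≤ #Y ∧
        (#Y ≤ Order.succ κ → pNum κ = Order.succ κ ∧ tNum κ = Order.succ κ) := by
  obtain ⟨π, hπ⟩ := exists_meas hκ hU hn
  exact ⟨π, hπ, fun Y hY => theoremB hπ hκ Y hY⟩

end Pool.Agent.Results.MP_eff308_lc.SmallSetsInUltrapower
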