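import Pool.Agent.Lib.MP_eff308_lc.EA.Exist

/-!
Measurable `κ` with `p(κ) < t(κ)`: a dichotomy for every `κ`-complete ultrafilter on `κ`.
-/

open Cardinal Set Filter

namespace Pool.Agent.Results.MP_eff308_lc.UltrafilterDichotomy

universe u

open Pool.Agent.EFF

theorem result (κ : Cardinal.{u}) (hκ : ℵ₀ < κ) (U : Ultrafilter κ.ord.ToType)
    (hU : KComplete κ U) (hn : Nonprincipal U) (hpt : pNum κ < tNum κ) :
    ∃ π : κ.ord.ToType → κ.ord.ToType, Meas κ U π ∧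
      ((pUlt κ U = pNum κ ∧ ∃ G : Set (Set κ.ord.ToType), (∀ A ∈ G, A ∈ U) ∧ #G < pNum κ ∧
          ¬ ∃ A ∈ U, ∀ B ∈ G, AlmostSub κ A B) ∨
        (lUlt κ U π < pNum κ ∧ ∀ Y : Set (Set κ.ord.ToType), #Y ≤ pNum κ → InUlt U π Y) ∨
        (pNum κ).ord.cof < κ) := by
  obtain ⟨π, hπ⟩ := exists_meas hκ hU hn
  exact ⟨π, hπ, theoremA hπ hκ hpt⟩

end Pool.Agent.Results.MP_eff308_lc.UltrafilterDichotomy
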